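import Mathlib

/-! Cup stacking on graphs: the game, collections (trees of moves) and collections of types. -/

set_option autoImplicit false

namespace Pool.Agent.Q124.Cups

open Finset

section game

variable {V : Type*} [Fintype V] [DecidableEq V]

/-- A move of cup stacking: the vertex `x` carries `c x ≥ 1` cups, the vertex `y ≠ x` carries at
least one cup and has distance exactly `c x` from `x`; all cups of `x` are put on `y`. -/
def Move (G : SimpleGraph V) (c c' : V → ℕ) : Prop :=
  ∃ x y, x ≠ y ∧ 1 ≤ c x ∧ 1 ≤ c y ∧ G.dist x y = c x ∧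
    c' = Function.update (Function.update c y (c y + c x)) x 0

/-- Starting with one cup on every vertex, finitely many moves bring all cups to `t`. -/
def StackableAt (G : SimpleGraph V) (t : V) : Prop :=
  Relation.ReflTransGen (Move G) (fun _ => 1) (fun v => if v = t then Fintype.card V else 0)

/-- the cups of the set can be collected at the vertex -/
inductive Coll (G : SimpleGraph V) : Finset V → V → Prop
  | single (y : V) : Coll G {y} y
  | add {S S' : Finset V} {y y' : V} : Coll G S y → Coll G S' y' → Disjoint S S' →
      G.dist y' y = S'.card → Coll G (S ∪ S') y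

omit [Fintype V] in
theorem Coll.mem {G : SimpleGraph V} {S : Finset V} {y : V} (h : Coll G S y) : y ∈ S := by
  induction h with
  | single y => exact mem_singleton_self y
  | add _ _ _ _ ih _ => exact mem_union_left _ ih

theorem Coll.play {G : SimpleGraph V} {S : Finset V} {y : V} (h : Coll G S y) :
    ∀ c : V → ℕ, (∀ v ∈ S, c v = 1) →
    Relation.ReflTransGen (Move G) c
      (fun v => if v = y then S.card else if v ∈ S then 0 else c v) := by
  induction h with
  | single y =>
    intro c hc
    have : (fun v => if v = y then ({y} : Finset V).card else if v ∈ ({y} : Finset V) then 0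
        else c v) = c := by
      funext v
      by_cases hv : v = y
      · subst hv
        simp [hc v (mem_singleton_self v)]
      · simp [hv]
    rw [this]
  | @add S S' y y' h1 h2 hd hdist ih1 ih2 =>
    intro c hc
    have hy := h1.mem
    have hy' := h2.mem
    have hyS' : y ∉ S' := disjoint_left.1 hd hy
    have hy'S : y' ∉ S := fun h => disjoint_left.1 hd h hy'
    have hne : y' ≠ y := fun h => hyS' (h ▸ hy')
    have hS1 : 1 ≤ S.card := card_pos.2 ⟨y, hy⟩
    have hS2 : 1 ≤ S'.card := card_pos.2 ⟨y', hy'⟩
    refine (ih2 c fun v hv => hc v (mem_union_right _ hv)).trans ?_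
    refine (ih1 _ ?_).trans ?_
    · intro v hv
      have hv' : v ∉ S' := disjoint_left.1 hd hv
      have hv2 : v ≠ y' := fun h => hv' (h ▸ hy')
      simp only [hv2, hv', if_false]
      exact hc v (mem_union_left _ hv)
    · refine Relation.ReflTransGen.single ⟨y', y, hne, ?_, ?_, ?_, ?_⟩
      · simp only [hne, hy'S, if_false, if_true]
        exact hS2
      · simp only [if_true]
        exact hS1
      · simp only [hne, hy'S, if_false, if_true]
        exact hdist
      · funext v
        by_cases hv : v = y'
        · subst hv
          simp [hne, hy']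
        by_cases hv2 : v = y
        · subst hv2
          rw [Function.update_of_ne hv, Function.update_self]
          simp only [hne, hy'S, if_false, if_true]
          rw [card_union_of_disjoint hd]
        rw [Function.update_of_ne hv, Function.update_of_ne hv2]
        simp only [hv, hv2, if_false, mem_union]
        by_cases h3 : v ∈ S
        · simp [h3]
        · by_cases h4 : v ∈ S'
          · simp [h4]
          · simp [h3, h4]

omit [Fintype V] in
theorem play_coll {G : SimpleGraph V} {c : V → ℕ}
    (h : Relation.ReflTransGen (Move G) (fun _ => 1) c) :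
    ∃ P : V → Finset V, (∀ v, (P v).card = c v) ∧ (∀ v, P v ≠ ∅ → Coll G (P v) v) ∧
      ∀ u v, u ≠ v → Disjoint (P u) (P v) := by
  induction h with
  | refl =>
    exact ⟨fun v => {v}, fun v => card_singleton v, fun v _ => Coll.single v,
      fun u v h => disjoint_singleton.2 h⟩
  | tail _ hm ih =>
    obtain ⟨P, h1, h2, h3⟩ := ih
    obtain ⟨x, y, hxy, hcx, hcy, hdist, rfl⟩ := hm
    refine ⟨Function.update (Function.update P y (P y ∪ P x)) x ∅, ?_, ?_, ?_⟩
    · intro v
      by_cases hv : v = x
      · subst hv
        simp
      rw [Function.update_of_ne hv, Function.update_of_ne hv]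
      by_cases hv2 : v = y
      · subst hv2
        rw [Function.update_self, Function.update_self, card_union_of_disjoint (h3 v x hv), h1, h1]
      · rw [Function.update_of_ne hv2, Function.update_of_ne hv2]
        exact h1 v
    · intro v
      by_cases hv : v = x
      · subst hv
        simp
      rw [Function.update_of_ne hv]
      by_cases hv2 : v = y
      · subst hv2
        rw [Function.update_self]
        intro _
        refine Coll.add (h2 v ?_) (h2 x ?_) (h3 v x hv) (by rw [hdist, h1])
        · intro h
          have := h1 v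
          rw [h, card_empty] at this
          omega
        · intro h
          have := h1 x
          rw [h, card_empty] at this
          omega
      · rw [Function.update_of_ne hv2]
        exact h2 v
    · have key : ∀ u v, u ≠ v → u ≠ x → v ≠ x → Disjoint
          (Function.update (Function.update P y (P y ∪ P x)) x ∅ u)
          (Function.update (Function.update P y (P y ∪ P x)) x ∅ v) := by
        intro u v huv hu hv
        rw [Function.update_of_ne hu, Function.update_of_ne hv]
        by_cases hu2 : u = y
        · subst hu2
          rw [Function.update_self, Function.update_of_ne (Ne.symm huv), disjoint_union_left]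
          exact ⟨h3 u v huv, h3 x v (Ne.symm hv)⟩
        by_cases hv2 : v = y
        · subst hv2
          rw [Function.update_self, Function.update_of_ne hu2, disjoint_union_right]
          exact ⟨h3 u v huv, h3 u x hu⟩
        rw [Function.update_of_ne hu2, Function.update_of_ne hv2]
        exact h3 u v huv
      intro u v huv
      by_cases hu : u = x
      · subst hu
        rw [Function.update_self]
        exact disjoint_empty_left _
      by_cases hv : v = x
      · subst hv
        rw [Function.update_self]
        exact disjoint_empty_right _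
      exact key u v huv hu hv

theorem stackable_iff {G : SimpleGraph V} {t : V} : StackableAt G t ↔ Coll G univ t := by
  constructor
  · intro h
    obtain ⟨P, h1, h2, -⟩ := play_coll h
    have h3 : P t = univ := by
      rw [← card_eq_iff_eq_univ, h1]
      simp
    rw [← h3]
    refine h2 t ?_
    rw [h3]
    exact (univ_nonempty_iff.2 ⟨t⟩).ne_empty
  · intro h
    have h1 := h.play (fun _ => 1) (fun _ _ => rfl)
    unfold StackableAt
    convert h1 using 1
    funext v
    simp [card_univ]

end game

section types

variable {T : Type*}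

/-- collections of types: the multiset `M` of types is collected at a vertex of type `a`, if
different vertices of types `a'` and `a` have the distance `δ a' a` -/
inductive TC (δ : T → T → ℕ) : Multiset T → T → Prop
  | single (a : T) : TC δ {a} a
  | add {M M' : Multiset T} {a a' : T} : TC δ M a → TC δ M' a' → δ a' a = M'.card →
      TC δ (M + M') a

theorem TC.mem {δ : T → T → ℕ} {M : Multiset T} {a : T} (h : TC δ M a) : a ∈ M := by
  induction h with
  | single a => exact Multiset.mem_singleton_self a
  | add _ _ _ ih _ => exact Multiset.mem_add.2 (Or.inl ih)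

/-- groups which are collected at a vertex of type `a` -/
inductive TG (δ : T → T → ℕ) (a : T) : Multiset T → Prop
  | zero : TG δ a 0
  | add {N M' : Multiset T} {a' : T} : TG δ a N → TC δ M' a' → δ a' a = M'.card → TG δ a (N + M')

theorem TG.tc {δ : T → T → ℕ} {a : T} {N : Multiset T} (h : TG δ a N) : TC δ ({a} + N) a := by
  induction h with
  | zero =>
    rw [add_zero]
    exact TC.single a
  | add _ h2 h3 ih =>
    rw [← add_assoc]
    exact TC.add ih h2 h3

theorem TG.of {δ : T → T → ℕ} {a a' : T} {M : Multiset T} (h : TC δ M a')
    (hd : δ a' a = M.card) : TG δ a M := by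
  have := TG.add (TG.zero (δ := δ) (a := a)) h hd
  rwa [zero_add] at this

theorem TG.append {δ : T → T → ℕ} {a : T} {M N : Multiset T} (h1 : TG δ a M) (h2 : TG δ a N) :
    TG δ a (M + N) := by
  induction h2 with
  | zero => rwa [add_zero]
  | add _ h3 h4 ih =>
    rw [← add_assoc]
    exact TG.add ih h3 h4

theorem TG.nsmul {δ : T → T → ℕ} {a : T} {M : Multiset T} (h : TG δ a M) (n : ℕ) :
    TG δ a (n • M) := by
  induction n with
  | zero =>
    rw [zero_nsmul]
    exact TG.zero
  | succ n ih =>
    rw [succ_nsmul]
    exact ih.append h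

theorem TG.sum {δ : T → T → ℕ} {a : T} {ι : Type*} (s : Finset ι) (F : ι → Multiset T)
    (h : ∀ i ∈ s, TG δ a (F i)) : TG δ a (∑ i ∈ s, F i) := by
  classical
  induction s using Finset.induction_on with
  | empty =>
    rw [sum_empty]
    exact TG.zero
  | insert i s hi ih =>
    rw [sum_insert hi]
    exact (h i (mem_insert_self i s)).append (ih fun j hj => h j (mem_insert_of_mem hj))

theorem TC.add_group {δ : T → T → ℕ} {a a' : T} {M M' : Multiset T} (h : TC δ M a)
    (h' : TC δ M' a') (hd : δ a' a = M'.card) (n : ℕ) : TC δ (M + n • M') a := by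
  induction n with
  | zero =>
    rw [zero_nsmul, add_zero]
    exact h
  | succ n ih =>
    rw [succ_nsmul, ← add_assoc]
    exact TC.add ih h' hd

theorem TC.clique {δ : T → T → ℕ} {a : T} (ha : δ a a = 1) (n : ℕ) (hn : 1 ≤ n) :
    TC δ (n • {a}) a := by
  obtain ⟨m, rfl⟩ := Nat.exists_eq_add_of_le hn
  rw [add_nsmul, one_nsmul]
  exact (TC.single a).add_group (TC.single a) (by rw [ha, Multiset.card_singleton]) m

/-- a multiple of the distance of vertices of a clique is collected -/
theorem TG.cell {δ : T → T → ℕ} {a b : T} (hb : δ b b = 1) (hd : 1 ≤ δ b a) (n : ℕ)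
    (hn : δ b a ∣ n) : TG δ a (n • {b}) := by
  obtain ⟨m, rfl⟩ := hn
  rw [mul_comm, mul_nsmul']
  refine TG.nsmul (TG.of (TC.clique hb (δ b a) hd) ?_) m
  rw [Multiset.card_nsmul, Multiset.card_singleton, mul_one]

variable {V : Type*} [Fintype V] [DecidableEq V]

theorem split (τ : V → T) (M' : Multiset T) : ∀ (M : Multiset T) (S : Finset V) (y : V), y ∈ S →
    τ y ∈ M → S.val.map τ = M + M' → ∃ S1 S2, S = S1 ∪ S2 ∧ Disjoint S1 S2 ∧ y ∈ S1 ∧
      S1.val.map τ = M ∧ S2.val.map τ = M' := by
  classical
  induction M' using Multiset.induction_on with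
  | empty =>
    intro M S y hy _ h
    refine ⟨S, ∅, by simp, disjoint_empty_right _, hy, by simpa using h, by simp⟩
  | cons b M'' ih =>
    intro M S y hy hyM h
    obtain ⟨N, hN⟩ := Multiset.exists_cons_of_mem hyM
    have h1 : (S.erase y).val.map τ = N + b ::ₘ M'' := by
      have h2 : S.val.map τ = τ y ::ₘ (S.erase y).val.map τ := by
        conv_lhs => rw [← insert_erase hy, insert_val_of_notMem (notMem_erase y S)]
        rw [Multiset.map_cons]
      rw [h, hN, Multiset.cons_add] at h2
      exact ((Multiset.cons_inj_right _).1 h2).symm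
    have h3 : b ∈ (S.erase y).val.map τ := by
      rw [h1]
      exact Multiset.mem_add.2 (Or.inr (Multiset.mem_cons_self b M''))
    obtain ⟨v, hv, hvb⟩ := Multiset.mem_map.1 h3
    have hvS : v ∈ S.erase y := Finset.mem_def.2 hv
    have hvy : v ≠ y := ne_of_mem_erase hvS
    have hvS2 : v ∈ S := mem_of_mem_erase hvS
    have h4 : (S.erase v).val.map τ = M + M'' := by
      have h5 : S.val.map τ = τ v ::ₘ (S.erase v).val.map τ := by
        conv_lhs => rw [← insert_erase hvS2, insert_val_of_notMem (notMem_erase v S)]
        rw [Multiset.map_cons]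
      rw [h, hvb, Multiset.add_cons] at h5
      exact ((Multiset.cons_inj_right _).1 h5).symm
    obtain ⟨S1, S2, e1, e2, e3, e4, e5⟩ := ih M (S.erase v) y
      (mem_erase.2 ⟨Ne.symm hvy, hy⟩) hyM h4
    have hv1 : v ∉ S1 := fun h6 => (notMem_erase v S) (e1 ▸ mem_union_left _ h6)
    have hv2 : v ∉ S2 := fun h6 => (notMem_erase v S) (e1 ▸ mem_union_right _ h6)
    refine ⟨S1, insert v S2, ?_, ?_, e3, e4, ?_⟩
    · rw [union_insert, ← e1, insert_erase hvS2]
    · rw [disjoint_insert_right]
      exact ⟨hv1, e2⟩
    · rw [insert_val_of_notMem hv2, Multiset.map_cons, e5, hvb]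

theorem coll_of_tc {G : SimpleGraph V} {δ : T → T → ℕ} {τ : V → T}
    (hd : ∀ u v, u ≠ v → G.dist u v = δ (τ u) (τ v)) {M : Multiset T} {a : T} (h : TC δ M a) :
    ∀ (S : Finset V) (y : V), y ∈ S → τ y = a → S.val.map τ = M → Coll G S y := by
  induction h with
  | single a =>
    intro S y hy hya hS
    have h1 : S.card = 1 := by
      have := congrArg Multiset.card hS
      rwa [Multiset.card_map, Multiset.card_singleton] at this
    obtain ⟨z, rfl⟩ := card_eq_one.1 h1
    rw [mem_singleton] at hy
    subst hy
    exact Coll.single y
  | @add M M' a a' h1 h2 hc ih1 ih2 =>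
    intro S y hy hya hS
    obtain ⟨S1, S2, e1, e2, e3, e4, e5⟩ := split τ M' M S y hy (hya ▸ h1.mem) hS
    have h3 : a' ∈ S2.val.map τ := e5 ▸ h2.mem
    obtain ⟨y', hy', hya'⟩ := Multiset.mem_map.1 h3
    have hy'2 : y' ∈ S2 := Finset.mem_def.2 hy'
    have hne : y' ≠ y := fun h => disjoint_left.1 e2 e3 (h ▸ hy'2)
    rw [e1]
    refine Coll.add (ih1 S1 y e3 hya e4) (ih2 S2 y' hy'2 hya' e5) e2 ?_
    rw [hd y' y hne, hya, hya', hc, ← e5, Multiset.card_map]
    rfl

theorem tc_of_coll {G : SimpleGraph V} {δ : T → T → ℕ} {τ : V → T}
    (hd : ∀ u v, u ≠ v → G.dist u v = δ (τ u) (τ v)) {S : Finset V} {y : V} (h : Coll G S y) :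
    TC δ (S.val.map τ) (τ y) := by
  induction h with
  | single y => exact TC.single _
  | @add S S' y y' h1 h2 hdis hdist ih1 ih2 =>
    have hne : y' ≠ y := fun h => disjoint_left.1 hdis h1.mem (h ▸ h2.mem)
    rw [← disjUnion_eq_union S S' hdis]
    have : (S.disjUnion S' hdis).val.map τ = S.val.map τ + S'.val.map τ := by
      rw [← Multiset.map_add]
      rfl
    rw [this]
    refine TC.add ih1 ih2 ?_
    rw [← hd y' y hne, hdist, Multiset.card_map]
    rfl

end types

end Pool.Agent.Q124.Cups
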