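import Pool.Agent.Q124.Cups.Types

/-! Invariants of collections with a broken gadget. -/

set_option autoImplicit false

namespace Pool.Agent.Q124.Cups

open Finset

/-- all types but the big clique and the leaves of the broken gadget -/
def isW : Ty → Prop
  | .n m => m ≠ 1 ∧ m.val < 6
  | .g _ _ => True

instance : DecidablePred isW := fun a => by
  unfold isW
  split <;> infer_instance

/-- number of elements of the type `n m` -/
def ct (m : Fin 10) : Multiset Ty →+ ℕ := Multiset.countAddMonoidHom (.n m)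

/-- number of `W`-elements -/
def cw : Multiset Ty →+ ℕ := Multiset.countPAddMonoidHom isW

theorem ct_le (m : Fin 10) (M : Multiset Ty) : ct m M ≤ M.card := Multiset.count_le_card _ _

theorem ct_single (m : Fin 10) (a : Ty) : ct m {a} = if a = .n m then 1 else 0 := by
  simp only [ct, Multiset.coe_countAddMonoidHom, Multiset.count_singleton]
  by_cases h : a = .n m
  · rw [if_pos h, if_pos h.symm]
  · rw [if_neg h, if_neg (Ne.symm h)]

theorem cw_single (a : Ty) : cw {a} = if isW a then 1 else 0 := by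
  have h := Multiset.countP_cons (p := isW) a 0
  rw [Multiset.countP_zero, zero_add] at h
  exact h

theorem isW_of {M : Multiset Ty} (hM : cw M = 0) {a : Ty} (ha : a ∈ M) : ¬ isW a := by
  have h : Multiset.countP isW M = 0 := hM
  rw [Multiset.countP_eq_zero] at h
  exact h a ha

theorem notW (a : Ty) (h : ¬ isW a) : a = .n 1 ∨ a = .n 6 ∨ a = .n 7 ∨ a = .n 8 ∨ a = .n 9 := by
  rcases a with m | ⟨j, q⟩
  · have key : ∀ m : Fin 10, ¬ (m ≠ 1 ∧ m.val < 6) → m = 1 ∨ m = 6 ∨ m = 7 ∨ m = 8 ∨ m = 9 := by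
      decide +kernel
    have h1 := key m h
    rcases h1 with h1 | h1 | h1 | h1 | h1 <;> subst h1 <;> simp
  · exact absurd trivial h

/-- collections without `W`-elements: the data -/
def Inv (N c0 c1 c2 c3 : ℕ) (a : Ty) : Prop :=
  (a = .n 1 ∧ c0 = 0 ∧ c1 = 0 ∧ c2 = 0 ∧ c3 = 0) ∨
  (a = .n 6 ∧ c0 = 1 ∧ c2 = c3 ∧ 1 + 3 * c1 + 4 * c2 ≤ N ∧ (N + c1) % 2 = 1) ∨
  (a = .n 7 ∧ c1 = 1 ∧ c2 = c3 ∧ 1 + 3 * c0 + 4 * c2 ≤ N ∧ (N + c0) % 2 = 1) ∨
  (a = .n 8 ∧ c2 = 1 ∧ c0 = c1 ∧ 1 + 3 * c3 + 4 * c0 ≤ N ∧ (N + c3) % 2 = 1) ∨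
  (a = .n 9 ∧ c3 = 1 ∧ c0 = c1 ∧ 1 + 3 * c2 + 4 * c0 ≤ N ∧ (N + c2) % 2 = 1)

theorem Inv.add {N c0 c1 c2 c3 N' c0' c1' c2' c3' : ℕ} {a a' : Ty} (h : Inv N c0 c1 c2 c3 a)
    (h' : Inv N' c0' c1' c2' c3' a') (hd : dl a' a = N') :
    Inv (N + N') (c0 + c0') (c1 + c1') (c2 + c2') (c3 + c3') a := by
  unfold Inv at h h' ⊢
  rcases h with ⟨rfl, h⟩ | ⟨rfl, h⟩ | ⟨rfl, h⟩ | ⟨rfl, h⟩ | ⟨rfl, h⟩ <;>
    rcases h' with ⟨rfl, h'⟩ | ⟨rfl, h'⟩ | ⟨rfl, h'⟩ | ⟨rfl, h'⟩ | ⟨rfl, h'⟩ <;>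
    simp [dl, dn] at hd <;> simp <;> omega

theorem inv_tc {M : Multiset Ty} {a : Ty} (h : TC dl M a) :
    cw M = 0 → Inv M.card (ct 6 M) (ct 7 M) (ct 8 M) (ct 9 M) a := by
  induction h with
  | single a =>
    intro hw
    have ha := isW_of hw (Multiset.mem_singleton_self a)
    rw [Multiset.card_singleton, ct_single, ct_single, ct_single, ct_single]
    unfold Inv
    rcases notW a ha with rfl | rfl | rfl | rfl | rfl <;> simp
  | @add M M' a a' h1 h2 hd ih1 ih2 =>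
    intro hw
    rw [map_add] at hw
    rw [Multiset.card_add, map_add, map_add, map_add, map_add]
    exact (ih1 (by omega)).add (ih2 (by omega)) hd

/-- the claims on all collections -/
def Root (w c0 c1 c2 c3 : ℕ) : Ty → Prop
  | .n 0 => c0 ≤ 12 * w
  | .n 1 => c0 ≤ 12 * w
  | .n 2 => c1 ≤ 12 * w
  | .n 3 => c0 ≤ 12 * w
  | .n 4 => c3 ≤ 12 * w
  | .n 5 => c2 ≤ 12 * w
  | .n 6 => c0 ≤ 12 * w + 1
  | .n 7 => c1 ≤ 12 * w + 1
  | .n 8 => c2 ≤ 12 * w + 1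
  | .n 9 => c3 ≤ 12 * w + 1
  | .g _ q => if (rho q + 1) % 2 = 0 then c0 ≤ c1 + 12 * w else c2 ≤ c3 + 12 * w

theorem Root.big {w c0 c1 c2 c3 w' c0' c1' c2' c3' : ℕ} {a : Ty} (h : Root w c0 c1 c2 c3 a)
    (h0 : c0' ≤ 12 * w') (h1 : c1' ≤ 12 * w') (h2 : c2' ≤ 12 * w') (h3 : c3' ≤ 12 * w') :
    Root (w + w') (c0 + c0') (c1 + c1') (c2 + c2') (c3 + c3') a := by
  rcases a with m | ⟨j, q⟩
  · fin_cases m <;> simp only [Root] at h ⊢ <;> omega
  · simp only [Root] at h ⊢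
    split_ifs at h ⊢ <;> omega

theorem Root.small {w c0 c1 c2 c3 N' c0' c1' c2' c3' : ℕ} {a a' : Ty} (h : Root w c0 c1 c2 c3 a)
    (h' : Inv N' c0' c1' c2' c3' a') (hd : dl a' a = N') :
    Root w (c0 + c0') (c1 + c1') (c2 + c2') (c3 + c3') a := by
  rcases a with m | ⟨j, q⟩
  · unfold Inv at h'
    rcases h' with ⟨rfl, h'⟩ | ⟨rfl, h'⟩ | ⟨rfl, h'⟩ | ⟨rfl, h'⟩ | ⟨rfl, h'⟩ <;>
      fin_cases m <;> simp [dl, dn] at hd <;> simp [Root] at h ⊢ <;> omega
  · have hq := rho_le q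
    unfold Inv at h'
    have k1 : kap 1 = 1 := rfl
    have k6 : kap 6 = 2 := rfl
    have k7 : kap 7 = 2 := rfl
    have k8 : kap 8 = 3 := rfl
    have k9 : kap 9 = 3 := rfl
    simp only [Root] at h ⊢
    rcases h' with ⟨rfl, h'⟩ | ⟨rfl, h'⟩ | ⟨rfl, h'⟩ | ⟨rfl, h'⟩ | ⟨rfl, h'⟩ <;>
      simp only [dl, k1, k6, k7, k8, k9] at hd <;> split_ifs at h ⊢ <;> omega

theorem root_tc {M : Multiset Ty} {a : Ty} (h : TC dl M a) :
    Root (cw M) (ct 6 M) (ct 7 M) (ct 8 M) (ct 9 M) a := by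
  induction h with
  | single a =>
    rw [cw_single, ct_single, ct_single, ct_single, ct_single]
    rcases a with m | ⟨j, q⟩
    · fin_cases m <;> simp [Root, isW]
    · simp [Root, isW]
  | @add M M' a a' h1 h2 hd ih1 ih2 =>
    by_cases hw : cw M' = 0
    · rw [map_add, map_add, map_add, map_add, map_add, hw, add_zero]
      exact ih1.small (inv_tc h2 hw) hd
    · rw [map_add, map_add, map_add, map_add, map_add]
      have hc : M'.card ≤ 12 := by
        rw [← hd]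
        exact dl_le _ _
      have e0 := ct_le 6 M'
      have e1 := ct_le 7 M'
      have e2 := ct_le 8 M'
      have e3 := ct_le 9 M'
      exact ih1.big (by omega) (by omega) (by omega) (by omega)

/-- with many leaves there is no collection of everything -/
theorem no_root {M : Multiset Ty} {a : Ty} (h : TC dl M a) (A : ℕ) (hA : 12 * cw M + 2 ≤ A)
    (h6 : ct 6 M = 2 * A + 1) (h7 : ct 7 M = A + 1) (h8 : ct 8 M = 2 * A + 1)
    (h9 : ct 9 M = A + 1) : False := by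
  have h1 := root_tc h
  rw [h6, h7, h8, h9] at h1
  rcases a with m | ⟨j, q⟩
  · fin_cases m <;> simp [Root] at h1 <;> omega
  · simp only [Root] at h1
    split_ifs at h1 <;> omega

end Pool.Agent.Q124.Cups
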