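import Pool.Agent.Q124.Cups.Gadget2
import Pool.Agent.Q124.Cups.Inv

/-! The graphs with intact, broken and dissolved gadgets, and their alternating chains. -/

set_option autoImplicit false

namespace Pool.Agent.Q124.Cups

open Finset

/-- the size parameter of gadget `j` -/
def Aj (j : ℕ) : ℕ := 27720 * 2000 ^ (j + 1)

theorem Aj_pos (j : ℕ) : 1 ≤ Aj j := Nat.mul_pos (by norm_num) (pow_pos (by norm_num) _)

theorem Aj_dvd (j : ℕ) : 27720 ∣ Aj j := Dvd.intro _ rfl

/-- the vertices: a root clique and `k` gadgets -/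
abbrev Vx (k : ℕ) : Type := Fin 27720 ⊕ (Σ j : Fin k, Σ q : Fin 14, Fin (sz (Aj j) q))

/-- the map to types for given types of the cells -/
def tm (k : ℕ) (f : ℕ → Fin 14 → Ty) : Vx k → Ty
  | .inl _ => .n 0
  | .inr ⟨j, q, _⟩ => f j q

theorem total (k : ℕ) (f : ℕ → Fin 14 → Ty) : (univ : Finset (Vx k)).val.map (tm k f)
    = 27720 • {.n 0} + ∑ j : Fin k, ∑ q, sz (Aj j) q • {f j q} := by
  have h1 : (univ : Finset (Vx k)).val.map (tm k f) = ∑ v : Vx k, ({tm k f v} : Multiset Ty) := by
    have := Multiset.sum_map_singleton ((univ : Finset (Vx k)).val.map (tm k f))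
    rw [Multiset.map_map] at this
    exact this.symm
  rw [h1, Fintype.sum_sum_type]
  refine congrArg₂ (· + ·) ?_ ?_
  · show (∑ _x : Fin 27720, ({Ty.n 0} : Multiset Ty)) = _
    rw [sum_const, card_univ, Fintype.card_fin]
  · rw [Fintype.sum_sigma]
    refine sum_congr rfl fun j _ => ?_
    rw [Fintype.sum_sigma]
    refine sum_congr rfl fun q _ => ?_
    simp [tm]

/-- cells of the broken gadget -/
def bq : Fin 14 → Fin 10 := ![1, 1, 1, 1, 1, 1, 2, 3, 4, 5, 6, 7, 8, 9]

/-- `p` intact gadgets -/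
def fH (p j : ℕ) (q : Fin 14) : Ty := if j < p then .g j q else .n 1

/-- `p` intact gadgets and a broken one -/
def fB (p j : ℕ) (q : Fin 14) : Ty := if j < p then .g j q else if j = p then .n (bq q) else .n 1

/-- dissolve the broken gadget -/
def psi : Ty → Ty
  | .n m => if m = 0 then .n 0 else .n 1
  | .g j q => .g j q

/-- break the gadget `p` -/
def phi (p : ℕ) : Ty → Ty
  | .n m => .n m
  | .g j q => if j = p then .n (bq q) else .g j q

theorem bq_ne : ∀ q, bq q ≠ 0 := by decide +kernel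
theorem bq_zero : bq 0 = 1 := rfl
theorem bq_adj : ∀ q q', dg q q' = 1 → dn (bq q) (bq q') = 1 := by decide +kernel

theorem fH_eq (p j : ℕ) (q : Fin 14) : fH p j q = psi (fB p j q) := by
  unfold fH fB
  by_cases h1 : j < p
  · rw [if_pos h1, if_pos h1]
    rfl
  rw [if_neg h1, if_neg h1]
  by_cases h2 : j = p
  · rw [if_pos h2]
    simp only [psi, if_neg (bq_ne q)]
  · rw [if_neg h2]
    rfl

theorem fB_eq (p j : ℕ) (q : Fin 14) : fB p j q = phi p (fH (p + 1) j q) := by
  unfold fH fB
  by_cases h1 : j < p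
  · rw [if_pos h1, if_pos (by omega)]
    simp only [phi, if_neg (show j ≠ p by omega)]
  rw [if_neg h1]
  by_cases h2 : j = p
  · rw [if_pos h2, if_pos (by omega)]
    simp only [phi, if_pos h2]
  · rw [if_neg h2, if_neg (by omega)]
    rfl

theorem psi_adj (a b : Ty) (h : dl a b = 1) : dl (psi a) (psi b) = 1 := by
  rcases a with m | ⟨j, q⟩ <;> rcases b with m' | ⟨j', q'⟩
  · simp only [psi]
    split_ifs <;> rfl
  · simp only [dl] at h
    have h1 := kap_zero m (by omega)
    subst h1
    exact h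
  · simp only [dl] at h
    have h1 := kap_zero m' (by omega)
    subst h1
    exact h
  · exact h

theorem phi_adj (p : ℕ) (a b : Ty) (h : dl a b = 1) : dl (phi p a) (phi p b) = 1 := by
  rcases a with m | ⟨j, q⟩ <;> rcases b with m' | ⟨j', q'⟩
  · exact h
  · have h0 := h
    simp only [dl] at h
    have h1 := kap_zero m (by omega)
    have h2 := rho_zero q' (by omega)
    subst h1
    subst h2
    simp only [phi]
    split_ifs <;> rfl
  · simp only [dl] at h
    have h1 := kap_zero m' (by omega)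
    have h2 := rho_zero q (by omega)
    subst h1
    subst h2
    simp only [phi]
    split_ifs <;> rfl
  · simp only [dl] at h
    by_cases hj : j = j'
    · subst hj
      rw [if_pos rfl] at h
      simp only [phi]
      split_ifs
      · exact bq_adj q q' h
      · simp only [dl, if_true]
        exact h
    · rw [if_neg hj] at h
      omega

theorem gr_mono {V : Type*} (τ τ' : V → Ty) (φ : Ty → Ty) (h : ∀ v, τ' v = φ (τ v))
    (hφ : ∀ a b, dl a b = 1 → dl (φ a) (φ b) = 1) : gr τ ≤ gr τ' := by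
  intro u v huv
  refine ⟨huv.1, ?_⟩
  rw [h, h]
  exact hφ _ _ huv.2

/-- the graph with `p` intact gadgets -/
def GH (k p : ℕ) : SimpleGraph (Vx k) := gr (tm k (fH p))

/-- the graph with `p` intact gadgets and a broken one -/
def GB (k p : ℕ) : SimpleGraph (Vx k) := gr (tm k (fB p))

theorem GB_le_GH (k p : ℕ) : GB k p ≤ GH k p := by
  refine gr_mono _ _ psi (fun v => ?_) psi_adj
  rcases v with v | ⟨j, q, i⟩
  · rfl
  · exact fH_eq p j q

theorem GH_le_GB (k p : ℕ) : GH k (p + 1) ≤ GB k p := by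
  refine gr_mono _ _ (phi p) (fun v => ?_) (phi_adj p)
  rcases v with v | ⟨j, q, i⟩
  · rfl
  · exact fB_eq p j q

theorem sz_pos (A : ℕ) (hA : 1 ≤ A) (q : Fin 14) : 0 < sz A q := by
  fin_cases q <;> simp [sz] <;> omega

theorem exists_cell (k : ℕ) (f : ℕ → Fin 14 → Ty) (j : ℕ) (hj : j < k) (q : Fin 14) :
    ∃ v : Vx k, tm k f v = f j q :=
  ⟨.inr ⟨⟨j, hj⟩, q, ⟨0, sz_pos _ (Aj_pos _) q⟩⟩, rfl⟩

theorem occ_H (k p : ℕ) : Occ (tm k (fH p)) := by
  refine ⟨⟨.inl 0, rfl⟩, Or.inr ?_, ?_⟩
  · rintro (v | ⟨j, q, i⟩) m h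
    · have h' : Ty.n 0 = Ty.n m := h
      injection h' with h'
      exact Or.inl h'.symm
    · have h' : fH p j q = Ty.n m := h
      unfold fH at h'
      split_ifs at h'
      injection h' with h'
      exact Or.inr h'.symm
  · rintro (v | ⟨j, q, i⟩) j' q' h
    · have h' : Ty.n 0 = Ty.g j' q' := h
      exact absurd h' (by simp)
    · have h' : fH p j q = Ty.g j' q' := h
      unfold fH at h'
      intro q''
      split_ifs at h' with h1
      injection h' with h2 h3
      obtain ⟨w, hw⟩ := exists_cell k (fH p) j j.2 q''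
      refine ⟨w, ?_⟩
      rw [hw, ← h2]
      unfold fH
      rw [if_pos h1]

theorem bq_surj : ∀ m : Fin 10, m ≠ 0 → ∃ q, bq q = m := by decide +kernel

theorem occ_B (k p : ℕ) (hp : p < k) : Occ (tm k (fB p)) := by
  refine ⟨⟨.inl 0, rfl⟩, Or.inl ?_, ?_⟩
  · intro m
    by_cases hm : m = 0
    · subst hm
      exact ⟨.inl 0, rfl⟩
    · obtain ⟨q, hq⟩ := bq_surj m hm
      obtain ⟨w, hw⟩ := exists_cell k (fB p) p hp q
      refine ⟨w, ?_⟩
      rw [hw]
      unfold fB
      rw [if_neg (lt_irrefl p), if_pos rfl, hq]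
  · rintro (v | ⟨j, q, i⟩) j' q' h
    · have h' : Ty.n 0 = Ty.g j' q' := h
      exact absurd h' (by simp)
    · have h' : fB p j q = Ty.g j' q' := h
      unfold fB at h'
      intro q''
      split_ifs at h' with h1
      injection h' with h2 h3
      obtain ⟨w, hw⟩ := exists_cell k (fB p) j j.2 q''
      refine ⟨w, ?_⟩
      rw [hw, ← h2]
      unfold fB
      rw [if_pos h1]

theorem GH_conn (k p : ℕ) : (GH k p).Connected := conn_gr _ (occ_H k p).mid

theorem GB_conn (k p : ℕ) (hp : p < k) : (GB k p).Connected := conn_gr _ (occ_B k p hp).mid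

theorem sz_sum (A : ℕ) : ∑ q, sz A q = 144 * A + 110880 := by
  rw [sum14]
  show 48 * A + 18 * A + 18 * A + 18 * A + 18 * A + 18 * A + 27719 + 27719 + 27719 + 27719
    + (2 * A + 1) + (A + 1) + (2 * A + 1) + (A + 1) = _
  ring

/-- everything of a gadget not containing the target -/
theorem outF (p j : ℕ) (a : Ty) (ha : a = .n 0 ∨ a = .n 1 ∨ ∃ j0 q0, j0 ≠ j ∧ a = .g j0 q0) :
    TG dl a (∑ q, sz (Aj j) q • {fH p j q}) := by
  by_cases hj : j < p
  · have e : (∑ q, sz (Aj j) q • {fH p j q} : Multiset Ty) = ∑ q, sz (Aj j) q • {.g j q} := by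
      refine sum_congr rfl fun q _ => ?_
      rw [fH, if_pos hj]
    rw [e]
    rcases ha with rfl | rfl | ⟨j0, q0, hj0, rfl⟩
    · refine gadget_out j _ _ (Aj_dvd j) 1 le_rfl (by norm_num) fun q => ?_
      simp only [dl]
      have : kap 0 = 0 := rfl
      omega
    · refine gadget_out j _ _ (Aj_dvd j) 2 (by norm_num) (by norm_num) fun q => ?_
      simp only [dl]
      have : kap 1 = 1 := rfl
      omega
    · have := rho_le q0
      refine gadget_out j _ _ (Aj_dvd j) (rho q0 + 2) (by omega) (by omega) fun q => ?_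
      simp only [dl, if_neg (Ne.symm hj0)]
      omega
  · have e : (∑ q, sz (Aj j) q • {fH p j q} : Multiset Ty) = (144 * Aj j + 110880) • {.n 1} := by
      rw [← sz_sum, sum_smul]
      refine sum_congr rfl fun q _ => ?_
      rw [fH, if_neg hj]
    rw [e]
    refine cell rfl _ (Or.inr ?_)
    exact Dvd.dvd.add (Dvd.dvd.mul_left (Aj_dvd j) 144) (by norm_num)

/-- everything of the gadget of the target -/
theorem inF (p j : ℕ) (q0 : Fin 14) (nv : Fin 14 → ℕ)
    (hnv : ∀ q, nv q + (if q = q0 then 1 else 0) = sz (Aj j) q) :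
    TG dl (fH p j q0) (∑ q, nv q • {fH p j q}) := by
  by_cases hj : j < p
  · have e : (∑ q, nv q • {fH p j q} : Multiset Ty) = ∑ q, nv q • {.g j q} := by
      refine sum_congr rfl fun q _ => ?_
      rw [fH, if_pos hj]
    rw [e, fH, if_pos hj]
    exact gadget_in j q0 _ (Aj_dvd j) (Aj_pos j) nv hnv
  · refine TG.sum _ _ fun q _ => ?_
    rw [fH, fH, if_neg hj, if_neg hj]
    exact cell rfl _ (Or.inl rfl)

theorem tc_total (k p : ℕ) (t : Vx k) :
    TC dl (27720 • {.n 0} + ∑ j : Fin k, ∑ q, sz (Aj j) q • {fH p j q}) (tm k (fH p) t) := by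
  rcases t with t | ⟨j0, q0, i⟩
  · show TC dl _ (.n 0)
    have h1 : TG dl (.n 0) (27719 • {.n 0} + ∑ j : Fin k, ∑ q, sz (Aj j) q • {fH p j q}) :=
      TG.append (cell rfl _ (Or.inl rfl)) (TG.sum _ _ fun j _ => outF p j _ (Or.inl rfl))
    have h2 := h1.tc
    have e2 : (27720 : ℕ) = 1 + 27719 := by norm_num
    rw [e2, add_nsmul, one_nsmul, add_assoc]
    exact h2
  · show TC dl _ (fH p j0 q0)
    have hs := sz_pos (Aj j0) (Aj_pos j0) q0
    obtain ⟨nv, hnv⟩ : ∃ nv : Fin 14 → ℕ, ∀ q, nv q + (if q = q0 then 1 else 0) = sz (Aj j0) q := by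
      refine ⟨fun q => sz (Aj j0) q - if q = q0 then 1 else 0, fun q => ?_⟩
      by_cases h : q = q0
      · subst h
        simp only [if_true]
        omega
      · simp only [if_neg h]
        omega
    have h1 := inF p j0 q0 nv hnv
    have h0 : fH p j0 q0 = .n 0 ∨ fH p j0 q0 = .n 1 ∨ fH p j0 q0 = .g j0 q0 := by
      unfold fH
      split_ifs
      · exact Or.inr (Or.inr rfl)
      · exact Or.inr (Or.inl rfl)
    have h2 : TG dl (fH p j0 q0)
        (∑ j ∈ (univ : Finset (Fin k)).erase j0, ∑ q, sz (Aj j) q • {fH p j q}) := by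
      refine TG.sum _ _ fun j hj => outF p j _ ?_
      have hne : (j0 : ℕ) ≠ j := fun e => (ne_of_mem_erase hj) (Fin.ext e.symm)
      rcases h0 with h0 | h0 | h0
      · exact Or.inl h0
      · exact Or.inr (Or.inl h0)
      · exact Or.inr (Or.inr ⟨j0, q0, hne, h0⟩)
    have h3 : TG dl (fH p j0 q0) (27720 • {.n 0}) := cell rfl _ (Or.inr (dvd_refl _))
    have h4 := ((h3.append h1).append h2).tc
    have e1 : (∑ q, sz (Aj j0) q • {fH p j0 q} : Multiset Ty)
        = {fH p j0 q0} + ∑ q, nv q • {fH p j0 q} := by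
      have : ∀ q, (sz (Aj j0) q • {fH p j0 q} : Multiset Ty)
          = nv q • {fH p j0 q} + if q = q0 then {fH p j0 q} else 0 := by
        intro q
        rw [← hnv q, add_nsmul]
        split_ifs
        · rw [one_nsmul]
        · rw [zero_nsmul]
      rw [sum_congr rfl fun q _ => this q, sum_add_distrib, sum_ite_eq' univ q0, if_pos (mem_univ _),
        add_comm]
    have e2 : (∑ j : Fin k, ∑ q, sz (Aj j) q • {fH p j q} : Multiset Ty)
        = (∑ q, sz (Aj j0) q • {fH p j0 q})
        + ∑ j ∈ (univ : Finset (Fin k)).erase j0, ∑ q, sz (Aj j) q • {fH p j q} :=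
      (add_sum_erase univ (fun j : Fin k => ∑ q, sz (Aj j) q • {fH p j q}) (mem_univ j0)).symm
    rw [e2, e1]
    have e3 : ∀ (P Q R S : Multiset Ty), P + (Q + R + S) = Q + (P + R + S) := by
      intro P Q R S
      abel
    rw [e3]
    exact h4

theorem GH_stack (k p : ℕ) (t : Vx k) : StackableAt (GH k p) t := by
  rw [stackable_iff]
  refine coll_of_tc (τ := tm k (fH p)) (δ := dl)
    (fun u v huv => dist_gr _ (occ_H k p).mid u v huv) (tc_total k p t) univ t (mem_univ t) rfl ?_
  exact total k (fH p)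

/-- the sizes below a gadget -/
def Sp (p : ℕ) : ℕ := ∑ j ∈ range p, (144 * Aj j + 110880)

theorem Sp_le (p : ℕ) : 12 * (138600 + Sp p) + 2 ≤ Aj p := by
  induction p with
  | zero =>
    simp [Sp, Aj]
  | succ p ih =>
    have h1 : Sp (p + 1) = Sp p + (144 * Aj p + 110880) := sum_range_succ _ _
    have h2 : Aj (p + 1) = 2000 * Aj p := by
      unfold Aj
      rw [pow_succ 2000 (p + 1)]
      ring
    rw [h1, h2]
    omega

theorem ct_total (k p : ℕ) (hp : p < k) (m : Fin 10) (q0 : Fin 14) (hm : 2 ≤ m.val)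
    (hq : ∀ q, bq q = m ↔ q = q0) :
    ct m ((univ : Finset (Vx k)).val.map (tm k (fB p))) = sz (Aj p) q0 := by
  rw [total, map_add, map_nsmul, ct_single, if_neg (by
    intro h
    injection h with h
    rw [← h] at hm
    simp at hm), smul_zero, zero_add, map_sum]
  have h1 : ∀ j : Fin k, ct m (∑ q, sz (Aj j) q • {fB p j q})
      = if j = ⟨p, hp⟩ then sz (Aj p) q0 else 0 := by
    intro j
    rw [map_sum]
    have h2 : ∀ q, ct m (sz (Aj j) q • {fB p j q})
        = if q = q0 then (if j = ⟨p, hp⟩ then sz (Aj p) q0 else 0) else 0 := by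
      intro q
      rw [map_nsmul, ct_single]
      by_cases hj : j = ⟨p, hp⟩
      · subst hj
        unfold fB
        rw [if_neg (lt_irrefl p), if_pos rfl, if_pos rfl]
        by_cases h3 : q = q0
        · rw [if_pos h3, if_pos (by rw [(hq q).2 h3]), h3]
          simp
        · rw [if_neg h3, if_neg (by
            intro h4
            injection h4 with h4
            exact h3 ((hq q).1 h4)), smul_zero]
      · rw [if_neg hj, ite_self]
        have hj' : (j : ℕ) ≠ p := fun e => hj (Fin.ext e)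
        unfold fB
        rw [if_neg hj', if_neg, smul_zero]
        split_ifs
        · simp
        · intro h4
          injection h4 with h4
          rw [← h4] at hm
          simp at hm
    rw [sum_congr rfl fun q _ => h2 q, sum_ite_eq' univ q0, if_pos (mem_univ _)]
  rw [sum_congr rfl fun j _ => h1 j, sum_ite_eq' univ, if_pos (mem_univ _)]

theorem bq_W : ∀ q, isW (.n (bq q)) ↔ 6 ≤ q.val ∧ q.val < 10 := by decide +kernel

theorem cw_part (p j : ℕ) : cw (∑ q, sz (Aj j) q • {fB p j q})
    ≤ (if j < p then 144 * Aj j + 110880 else 0) + if j = p then 110880 else 0 := by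
  have h1 : cw (∑ q, sz (Aj j) q • {fB p j q})
      = ∑ q, sz (Aj j) q * (if isW (fB p j q) then 1 else 0) := by
    rw [map_sum]
    refine sum_congr rfl fun q _ => ?_
    rw [map_nsmul, cw_single, smul_eq_mul]
  rw [h1]
  by_cases hj : j < p
  · rw [if_pos hj, ← sz_sum]
    refine le_add_right (sum_le_sum fun q _ => ?_)
    split_ifs <;> simp
  rw [if_neg hj, zero_add]
  by_cases hj2 : j = p
  · rw [if_pos hj2]
    have h2 : ∀ q, fB p j q = .n (bq q) := by
      intro q
      rw [fB, if_neg hj, if_pos hj2]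
    rw [sum14]
    simp only [h2, bq_W]
    simp [sz]
  · rw [if_neg hj2]
    have h2 : ∀ q, fB p j q = .n 1 := by
      intro q
      rw [fB, if_neg hj, if_neg hj2]
    simp only [h2]
    simp [isW]

theorem cw_total (k p : ℕ) : cw ((univ : Finset (Vx k)).val.map (tm k (fB p)))
    ≤ 138600 + Sp p := by
  rw [total, map_add, map_nsmul, cw_single, map_sum]
  have h1 : (∑ j : Fin k, cw (∑ q, sz (Aj j) q • {fB p j q}))
      ≤ ∑ j : Fin k, ((if (j : ℕ) < p then 144 * Aj j + 110880 else 0)
        + if (j : ℕ) = p then 110880 else 0) := sum_le_sum fun j _ => cw_part p j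
  rw [Fin.sum_univ_eq_sum_range (fun j => (if j < p then 144 * Aj j + 110880 else 0)
    + if j = p then 110880 else 0) k, sum_add_distrib, ← sum_filter, sum_ite_eq' (range k)] at h1
  have h2 : ∑ j ∈ (range k).filter (fun j => j < p), (144 * Aj j + 110880) ≤ Sp p := by
    refine sum_le_sum_of_subset ?_
    intro j hj
    exact mem_range.2 (mem_filter.1 hj).2
  have h3 : (if p ∈ range k then 110880 else 0) ≤ 110880 := by
    split_ifs <;> omega
  have h4 : 27720 • (if isW (.n 0) then 1 else 0) ≤ 27720 := by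
    split_ifs <;> simp
  omega

theorem GB_not (k p : ℕ) (hp : p < k) (t : Vx k) : ¬ StackableAt (GB k p) t := by
  rw [stackable_iff]
  intro h
  have h1 := tc_of_coll (τ := tm k (fB p)) (δ := dl)
    (fun u v huv => dist_gr _ (occ_B k p hp).mid u v huv) h
  refine no_root h1 (Aj p) ?_ ?_ ?_ ?_ ?_
  · have := cw_total k p
    have := Sp_le p
    omega
  · exact ct_total k p hp 6 10 (by decide) (by decide +kernel)
  · exact ct_total k p hp 7 11 (by decide) (by decide +kernel)
  · exact ct_total k p hp 8 12 (by decide) (by decide +kernel)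
  · exact ct_total k p hp 9 13 (by decide) (by decide +kernel)

/-- alternating chains of all lengths -/
theorem chain (r : ℕ) : ∃ (V : Type) (_ : Fintype V) (_ : DecidableEq V) (G : ℕ → SimpleGraph V),
    (∀ i, 1 ≤ i → i ≤ r → (G i).Connected) ∧
    (∀ i, 1 ≤ i → i < r → G i ≤ G (i + 1)) ∧
    (∀ i, 1 ≤ i → i ≤ r → Odd i → ∀ t, StackableAt (G i) t) ∧
    (∀ i, 1 ≤ i → i ≤ r → Even i → ∀ t, ¬ StackableAt (G i) t) := by
  refine ⟨Vx (r + 1), inferInstance, inferInstance,
    fun i => if i % 2 = 1 then GH (r + 1) (r + 1 - i / 2) else GB (r + 1) (r + 1 - i / 2),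
    ?_, ?_, ?_, ?_⟩
  · intro i h1 hi
    simp only
    split_ifs
    · exact GH_conn _ _
    · exact GB_conn _ _ (by omega)
  · intro i h1 hi
    simp only
    rcases Nat.mod_two_eq_zero_or_one i with h | h
    · rw [if_neg (show ¬ i % 2 = 1 by omega), if_pos (show (i + 1) % 2 = 1 by omega)]
      have : (i + 1) / 2 = i / 2 := by omega
      rw [this]
      exact GB_le_GH _ _
    · rw [if_pos h, if_neg (show ¬ (i + 1) % 2 = 1 by omega)]
      have h1 : r + 1 - i / 2 = (r + 1 - (i + 1) / 2) + 1 := by omega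
      rw [h1]
      exact GH_le_GB _ _
  · intro i _ hi hodd t
    have : i % 2 = 1 := Nat.odd_iff.1 hodd
    simp only [if_pos this]
    exact GH_stack _ _ t
  · intro i h1 hi heven t
    have : i % 2 = 0 := Nat.even_iff.1 heven
    have h2 : ¬ i % 2 = 1 := by omega
    simp only [if_neg h2]
    exact GB_not _ _ (by omega) t

end Pool.Agent.Q124.Cups
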