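import Pool.Agent.Q124.Cups.Types

/-! All cups of an intact gadget can be collected, from outside and from inside. -/

set_option autoImplicit false

namespace Pool.Agent.Q124.Cups

open Finset

theorem dvd_all (e : ℕ) (h1 : 1 ≤ e) (h2 : e ≤ 12) : e ∣ 27720 := by
  interval_cases e <;> norm_num

/-- the cups of a clique -/
theorem cell {a b : Ty} (hb : dl b b = 1) (n : ℕ) (hn : dl b a = 1 ∨ 27720 ∣ n) :
    TG dl a (n • {b}) := by
  refine TG.cell hb (dl_pos b a) n ?_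
  rcases hn with h | h
  · rw [h]
    exact one_dvd n
  · exact (dvd_all _ (dl_pos b a) (dl_le b a)).trans h

/-- the cell `X_f` -/
def cX (f : Fin 4) : Fin 14 := ⟨6 + f.val, by omega⟩
/-- the cell `I_f` -/
def cI (f : Fin 4) : Fin 14 := ⟨10 + f.val, by omega⟩
/-- the cells `Y, D_1, …, D_5` -/
def cc (i : Fin 6) : Fin 14 := ⟨i.val, by omega⟩

theorem d_Y_I : ∀ f, dg 0 (cI f) = 2 := by decide +kernel
theorem d_D_I : ∀ f, dg 1 (cI f) = 3 := by decide +kernel
theorem d_I_D : ∀ f, dg (cI f) 1 = 3 := by decide +kernel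
theorem d_X_I : ∀ f, dg (cX f) (cI f) = 1 := by decide +kernel
theorem d_I_X : ∀ f, dg (cI f) (cX f) = 1 := by decide +kernel
theorem d_X_X : ∀ f, dg (cX f) (cX f) = 1 := by decide +kernel
theorem d_c_c : ∀ i, dg (cc i) (cc i) = 1 := by decide +kernel

theorem dl_gg (j : ℕ) (q q' : Fin 14) : dl (.g j q) (.g j q') = dg q q' := by
  simp [dl]

theorem leaf_three (j : ℕ) (f : Fin 4) :
    TC dl ({.g j (cI f)} + 2 • {.g j 0}) (.g j (cI f)) := by
  refine TC.add (TC.single _) (TC.clique ?_ 2 (by norm_num)) ?_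
  · rw [dl_gg]
    rfl
  · rw [dl_gg, d_Y_I]
    simp

/-- the usual group of a leaf -/
theorem leaf_std (j : ℕ) (f : Fin 4) (a : Ty) (α β : ℕ)
    (h : dl (.g j (cI f)) a = 1 + 2 * α + 3 * β) :
    TG dl a ({.g j (cI f)} + (2 * α) • {.g j 0} + (3 * β) • {.g j 1} + 0 • {.g j 5}) := by
  have h1 : TC dl ({.g j (cI f)} + α • (2 • {.g j 0})) (.g j (cI f)) := by
    refine (TC.single _).add_group (a' := Ty.g j 0) (TC.clique ?_ 2 (by norm_num)) ?_ α
    · rw [dl_gg]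
      rfl
    · rw [dl_gg, d_Y_I]
      simp
  have h2 : TC dl ({.g j (cI f)} + α • (2 • {.g j 0}) + β • (3 • {.g j 1})) (.g j (cI f)) := by
    refine h1.add_group (a' := Ty.g j 1) (TC.clique ?_ 3 (by norm_num)) ?_ β
    · rw [dl_gg]
      rfl
    · rw [dl_gg, d_D_I]
      simp
  have h3 := TG.of (a := a) h2 (by
    rw [h]
    simp
    ring)
  rw [zero_nsmul, add_zero, mul_comm 2 α, mul_comm 3 β, mul_nsmul', mul_nsmul']
  exact h3

/-- the detour over `D_1` and `D_5` -/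
theorem leaf_det (j : ℕ) (f : Fin 4) (a : Ty) (z : ℕ) (hz : 1 ≤ z) (h : dl (.g j 5) a = z + 4) :
    TG dl a ({.g j (cI f)} + 2 • {.g j 0} + 1 • {.g j 1} + z • {.g j 5}) := by
  have h1 := leaf_three j f
  have h2 : TC dl ({.g j 1} + ({.g j (cI f)} + 2 • {.g j 0})) (.g j 1) := by
    refine TC.add (TC.single _) h1 ?_
    rw [dl_gg, d_I_D]
    simp
  have h3 : TC dl (z • {.g j 5} + ({.g j 1} + ({.g j (cI f)} + 2 • {.g j 0}))) (.g j 5) := by
    refine TC.add (TC.clique ?_ z hz) h2 ?_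
    · rw [dl_gg]
      rfl
    · rw [dl_gg]
      simp
      rfl
  have h4 := TG.of (a := a) h3 (by
    rw [h]
    simp)
  have e : ({.g j (cI f)} + 2 • {.g j 0} + 1 • {.g j 1} + z • {.g j 5} : Multiset Ty)
      = z • {.g j 5} + ({.g j 1} + ({.g j (cI f)} + 2 • {.g j 0})) := by
    rw [one_nsmul]
    abel
  rw [e]
  exact h4

/-- the cell `X_f` with one leaf, far target -/
theorem neck_far (j : ℕ) (f : Fin 4) (a : Ty) (h : 2 ≤ dl (.g j (cX f)) a) :
    TG dl a (27719 • {.g j (cX f)} + 1 • {.g j (cI f)}) := by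
  obtain ⟨e, he⟩ : ∃ e, e = dl (.g j (cX f)) a := ⟨_, rfl⟩
  have hle : e ≤ 12 := by
    rw [he]
    exact dl_le _ _
  rw [← he] at h
  have h1 : TC dl ((e - 1) • {.g j (cX f)} + {.g j (cI f)}) (.g j (cX f)) := by
    refine TC.add (TC.clique ?_ (e - 1) (by omega)) (TC.single _) ?_
    · rw [dl_gg, d_X_X]
    · rw [dl_gg, d_I_X]
      simp
  have h2 := TG.of (a := a) h1 (by
    rw [← he]
    simp
    omega)
  have h3 : TG dl a ((27720 - e) • {.g j (cX f)}) := by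
    refine TG.cell ?_ (dl_pos _ _) _ ?_
    · rw [dl_gg, d_X_X]
    · rw [← he]
      exact Nat.dvd_sub (dvd_all e (by omega) hle) (dvd_refl e)
  have e1 : (27719 • {.g j (cX f)} + 1 • {.g j (cI f)} : Multiset Ty)
      = (27720 - e) • {.g j (cX f)} + ((e - 1) • {.g j (cX f)} + {.g j (cI f)}) := by
    have e2 : 27720 - e + (e - 1) = 27719 := by omega
    rw [one_nsmul, ← add_assoc, ← add_nsmul, e2]
  rw [e1]
  exact h3.append h2

/-- the cell `X_f` with one leaf, target `Y` -/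
theorem neck_Y (j : ℕ) (f : Fin 4) (a : Ty) (h : dl (.g j (cX f)) a = 1)
    (h' : dl (.g j (cI f)) a = 2) :
    TG dl a (27719 • {.g j (cX f)} + 1 • {.g j (cI f)}) := by
  have h1 : TC dl ({.g j (cI f)} + {.g j (cX f)}) (.g j (cI f)) := by
    refine TC.add (TC.single _) (TC.single _) ?_
    rw [dl_gg, d_X_I]
    simp
  have h2 := TG.of (a := a) h1 (by
    rw [h']
    simp)
  have h3 : TG dl a (27718 • {.g j (cX f)}) := by
    refine cell ?_ _ (Or.inl h)
    rw [dl_gg, d_X_X]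
  have e1 : (27719 • {.g j (cX f)} + 1 • {.g j (cI f)} : Multiset Ty)
      = 27718 • {.g j (cX f)} + ({.g j (cI f)} + {.g j (cX f)}) := by
    have e2 : (27719 : ℕ) = 27718 + 1 := by norm_num
    rw [one_nsmul, add_comm ({.g j (cI f)} : Multiset Ty) {.g j (cX f)}, ← add_assoc, e2, add_nsmul,
      one_nsmul]
  rw [e1]
  exact h3.append h2

/-- the cell `X_f` without or with leaves, near target -/
theorem neck_near (j : ℕ) (f : Fin 4) (a : Ty) (n s : ℕ) (h : dl (.g j (cX f)) a = 1)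
    (h' : s = 0 ∨ dl (.g j (cI f)) a = 1) :
    TG dl a (n • {.g j (cX f)} + s • {.g j (cI f)}) := by
  refine TG.append (cell ?_ _ (Or.inl h)) ?_
  · rw [dl_gg, d_X_X]
  · rcases h' with rfl | h'
    · rw [zero_nsmul]
      exact TG.zero
    · refine TG.nsmul (TG.of (TC.single _) ?_) s
      rw [h']
      simp

theorem sum14 {M : Type*} [AddCommMonoid M] (F : Fin 14 → M) :
    ∑ q, F q = F 0 + F 1 + F 2 + F 3 + F 4 + F 5 + F 6 + F 7 + F 8 + F 9 + F 10 + F 11 + F 12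
      + F 13 := by
  simp only [Fin.sum_univ_castSucc, Fin.sum_univ_zero, zero_add]
  rfl

theorem main_gadget (j : ℕ) (a : Ty) (A : ℕ) (u y d z x s : Fin 4 → ℕ) (l : Fin 6 → ℕ)
    (nv : Fin 14 → ℕ)
    (hL : ∀ f, TG dl a ({.g j (cI f)} + y f • {.g j 0} + d f • {.g j 1} + z f • {.g j 5}))
    (hX : ∀ f, TG dl a (x f • {.g j (cX f)} + s f • {.g j (cI f)}))
    (hl : ∀ i, dl (.g j (cc i)) a = 1 ∨ 27720 ∣ l i)
    (h0 : nv 0 = l 0 + (u 0 * A * y 0 + u 1 * A * y 1 + u 2 * A * y 2 + u 3 * A * y 3))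
    (h1 : nv 1 = l 1 + (u 0 * A * d 0 + u 1 * A * d 1 + u 2 * A * d 2 + u 3 * A * d 3))
    (h2 : nv 2 = l 2) (h3 : nv 3 = l 3) (h4 : nv 4 = l 4)
    (h5 : nv 5 = l 5 + (u 0 * A * z 0 + u 1 * A * z 1 + u 2 * A * z 2 + u 3 * A * z 3))
    (h6 : nv 6 = x 0) (h7 : nv 7 = x 1) (h8 : nv 8 = x 2) (h9 : nv 9 = x 3)
    (h10 : nv 10 = u 0 * A + s 0) (h11 : nv 11 = u 1 * A + s 1)
    (h12 : nv 12 = u 2 * A + s 2) (h13 : nv 13 = u 3 * A + s 3) :
    TG dl a (∑ q, nv q • {.g j q}) := by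
  have k1 : TG dl a (∑ f : Fin 4, (u f * A) •
      ({.g j (cI f)} + y f • {.g j 0} + d f • {.g j 1} + z f • {.g j 5})) :=
    TG.sum _ _ fun f _ => (hL f).nsmul _
  have k2 : TG dl a (∑ f : Fin 4, (x f • {.g j (cX f)} + s f • {.g j (cI f)})) :=
    TG.sum _ _ fun f _ => hX f
  have k3 : TG dl a (∑ i : Fin 6, l i • {.g j (cc i)}) :=
    TG.sum _ _ fun i _ => cell (by rw [dl_gg, d_c_c]) _ (hl i)
  have k4 := (k1.append k2).append k3
  have e : (∑ q, nv q • {.g j q} : Multiset Ty) = (∑ f : Fin 4, (u f * A) •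
      ({.g j (cI f)} + y f • {.g j 0} + d f • {.g j 1} + z f • {.g j 5}))
      + (∑ f : Fin 4, (x f • {.g j (cX f)} + s f • {.g j (cI f)}))
      + ∑ i : Fin 6, l i • {.g j (cc i)} := by
    rw [sum14, Fin.sum_univ_four, Fin.sum_univ_four, Fin.sum_univ_six]
    have i0 : cI 0 = 10 := rfl
    have i1 : cI 1 = 11 := rfl
    have i2 : cI 2 = 12 := rfl
    have i3 : cI 3 = 13 := rfl
    have x0 : cX 0 = 6 := rfl
    have x1 : cX 1 = 7 := rfl
    have x2 : cX 2 = 8 := rfl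
    have x3 : cX 3 = 9 := rfl
    have c0 : cc 0 = 0 := rfl
    have c1 : cc 1 = 1 := rfl
    have c2 : cc 2 = 2 := rfl
    have c3 : cc 3 = 3 := rfl
    have c4 : cc 4 = 4 := rfl
    have c5 : cc 5 = 5 := rfl
    rw [i0, i1, i2, i3, x0, x1, x2, x3, c0, c1, c2, c3, c4, c5, h0, h1, h2, h3, h4, h5, h6, h7, h8,
      h9, h10, h11, h12, h13]
    module
  rw [e]
  exact k4

end Pool.Agent.Q124.Cups
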