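import Pool.Agent.Q124.Cups.Gadget

/-! All cups of an intact gadget can be collected, from outside and from inside (continued). -/

set_option autoImplicit false

namespace Pool.Agent.Q124.Cups

open Finset

/-- the sizes of the cells of a gadget -/
def sz (A : ℕ) : Fin 14 → ℕ := ![48 * A, 18 * A, 18 * A, 18 * A, 18 * A, 18 * A, 27719, 27719,
  27719, 27719, 2 * A + 1, A + 1, 2 * A + 1, A + 1]

/-- numbers of pairs for a leaf -/
def al : ℕ → ℕ
  | 3 => 1
  | 5 => 2
  | 6 => 1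
  | 7 => 3
  | 8 => 2
  | 9 => 4
  | _ => 0

/-- numbers of triples for a leaf -/
def be : ℕ → ℕ
  | 4 => 1
  | 6 => 1
  | 8 => 1
  | _ => 0

theorem out_tab : ∀ e : Fin 8, 1 ≤ e.val → e.val + 2 = 1 + 2 * al (e.val + 2) + 3 * be (e.val + 2)
    ∧ al (e.val + 2) ≤ 4 ∧ be (e.val + 2) ≤ 1 := by decide +kernel

theorem rho_I : ∀ f, rho (cI f) = 2 := by decide +kernel
theorem rho_X : ∀ f, rho (cX f) = 1 := by decide +kernel

/-- the cups of an intact gadget are collected from outside -/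
theorem gadget_out (j : ℕ) (a : Ty) (A : ℕ) (hA : 27720 ∣ A) (e : ℕ) (he1 : 1 ≤ e) (he7 : e ≤ 7)
    (h : ∀ q, dl (.g j q) a = rho q + e) : TG dl a (∑ q, sz A q • {.g j q}) := by
  obtain ⟨t1, t2, t3⟩ := out_tab ⟨e, by omega⟩ he1
  simp only at t1 t2 t3
  obtain ⟨α, hα⟩ : ∃ α, α = al (e + 2) := ⟨_, rfl⟩
  obtain ⟨β, hβ⟩ : ∃ β, β = be (e + 2) := ⟨_, rfl⟩
  rw [← hα, ← hβ] at t1
  rw [← hα] at t2
  rw [← hβ] at t3
  obtain ⟨c, hc⟩ := Nat.exists_eq_add_of_le t2
  obtain ⟨b, hb⟩ := Nat.exists_eq_add_of_le t3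
  refine main_gadget j a A ![2, 1, 2, 1] (fun _ => 2 * α) (fun _ => 3 * β) (fun _ => 0)
    (fun _ => 27719) (fun _ => 1) ![12 * c * A, 18 * b * A, 18 * A, 18 * A, 18 * A, 18 * A] (sz A)
    ?_ ?_ ?_ ?_ ?_ rfl rfl rfl ?_ rfl rfl rfl rfl rfl ?_ rfl ?_
  · intro f
    refine leaf_std j f a α β ?_
    rw [h, rho_I]
    omega
  · intro f
    refine neck_far j f a ?_
    rw [h, rho_X]
    omega
  · intro i
    right
    fin_cases i
    · exact Dvd.dvd.mul_left hA (12 * c)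
    · exact Dvd.dvd.mul_left hA (18 * b)
    · exact Dvd.dvd.mul_left hA 18
    · exact Dvd.dvd.mul_left hA 18
    · exact Dvd.dvd.mul_left hA 18
    · exact Dvd.dvd.mul_left hA 18
  · show 48 * A = 12 * c * A + (2 * A * (2 * α) + 1 * A * (2 * α) + 2 * A * (2 * α)
      + 1 * A * (2 * α))
    have : 48 = 12 * (α + c) := by omega
    rw [this]
    ring
  · show 18 * A = 18 * b * A + (2 * A * (3 * β) + 1 * A * (3 * β) + 2 * A * (3 * β)
      + 1 * A * (3 * β))
    have : 18 = 18 * (β + b) := by omega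
    calc 18 * A = 18 * (β + b) * A := by rw [← this]
      _ = _ := by ring
  · show 18 * A = 18 * A + (2 * A * 0 + 1 * A * 0 + 2 * A * 0 + 1 * A * 0)
    ring
  · show A + 1 = 1 * A + 1
    ring
  · show A + 1 = 1 * A + 1
    ring

/-- the amounts for the leaves, target inside -/
def yy (q0 : Fin 14) (f : Fin 4) : ℕ := if q0 = 0 ∨ q0 = cI f then 2 else 2 * al (dg (cI f) q0)
def dd (q0 : Fin 14) (f : Fin 4) : ℕ := if q0 = 0 ∨ q0 = cI f then 1 else 3 * be (dg (cI f) q0)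
def zz (q0 : Fin 14) (f : Fin 4) : ℕ := if q0 = 0 then 1 else if q0 = cI f then 3 else 0

theorem in_leaf : ∀ q0 f, q0 ≠ 0 → q0 ≠ cI f →
    dg (cI f) q0 = 1 + 2 * al (dg (cI f) q0) + 3 * be (dg (cI f) q0) := by decide +kernel
theorem in_Y0 : dg 5 0 = 1 + 4 := by decide +kernel
theorem in_I0 : ∀ f, dg 5 (cI f) = 3 + 4 := by decide +kernel
theorem in_zz : ∀ q0 f, q0 ≠ 0 → q0 ≠ cI f → zz q0 f = 0 := by decide +kernel
theorem in_zI : ∀ f, zz (cI f) f = 3 := by decide +kernel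
theorem in_z0 : ∀ f, zz 0 f = 1 := by decide +kernel

theorem in_y : ∀ q0, 2 * yy q0 0 + yy q0 1 + 2 * yy q0 2 + yy q0 3 < 48 := by decide +kernel
theorem in_d : ∀ q0, 2 * dd q0 0 + dd q0 1 + 2 * dd q0 2 + dd q0 3 ≤ 18 := by decide +kernel
theorem in_d1 : 2 * dd 1 0 + dd 1 1 + 2 * dd 1 2 + dd 1 3 < 18 := by decide +kernel
theorem in_z : ∀ q0, 2 * zz q0 0 + zz q0 1 + 2 * zz q0 2 + zz q0 3 < 18 := by decide +kernel
theorem in_X : ∀ f q0, q0 = cX f ∨ q0 = cI f ∨ q0 = 0 ∨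
    (2 ≤ dg (cX f) q0 ∧ q0 ≠ cX f ∧ q0 ≠ cI f) := by decide +kernel
theorem cX0 : ∀ f, cX f ≠ 0 := by decide +kernel
theorem cXI : ∀ f, cX f ≠ cI f := by decide +kernel
theorem cI0 : ∀ f, cI f ≠ 0 := by decide +kernel
theorem d_X_Y : ∀ f, dg (cX f) 0 = 1 := by decide +kernel
theorem d_I_Y : ∀ f, dg (cI f) 0 = 2 := by decide +kernel
theorem sz_X (A : ℕ) (f : Fin 4) : sz A (cX f) = 27719 := by fin_cases f <;> rfl

theorem in_one (c A : ℕ) (hc : 1 ≤ c) (hA : 1 ≤ A) : 1 ≤ c * A := Nat.mul_pos hc hA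

/-- the cups of an intact gadget are collected from inside -/
theorem gadget_in (j : ℕ) (q0 : Fin 14) (A : ℕ) (hA : 27720 ∣ A) (hA1 : 1 ≤ A) (nv : Fin 14 → ℕ)
    (hnv : ∀ q, nv q + (if q = q0 then 1 else 0) = sz A q) :
    TG dl (.g j q0) (∑ q, nv q • {.g j q}) := by
  obtain ⟨c0, hc0⟩ := Nat.exists_eq_add_of_lt (in_y q0)
  obtain ⟨c1, hc1⟩ := Nat.exists_eq_add_of_le (in_d q0)
  obtain ⟨c5, hc5⟩ := Nat.exists_eq_add_of_lt (in_z q0)
  have hc1' : q0 = 1 → 1 ≤ c1 := by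
    rintro rfl
    have := in_d1
    omega
  have p1 : q0 = 1 → 1 ≤ c1 * A := fun h => in_one _ _ (hc1' h) hA1
  refine main_gadget j _ A ![2, 1, 2, 1] (yy q0) (dd q0) (zz q0)
    (fun f => nv (cX f)) (fun f => if q0 = cI f then 0 else 1)
    (fun i => ![(c0 + 1) * A, c1 * A, 18 * A, 18 * A, 18 * A, (c5 + 1) * A] i
      - if q0 = cc i then 1 else 0) nv
    ?_ ?_ ?_ ?_ ?_ ?_ ?_ ?_ ?_ rfl rfl rfl rfl ?_ ?_ ?_ ?_
  · intro f
    by_cases h0 : q0 = 0
    · subst h0
      rw [in_z0]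
      exact leaf_det j f _ 1 le_rfl (by rw [dl_gg, in_Y0])
    by_cases hI : q0 = cI f
    · subst hI
      rw [in_zI]
      have e1 : yy (cI f) f = 2 := by simp [yy]
      have e2 : dd (cI f) f = 1 := by simp [dd]
      rw [e1, e2]
      exact leaf_det j f _ 3 (by norm_num) (by rw [dl_gg, in_I0])
    · rw [in_zz q0 f h0 hI]
      have e1 : yy q0 f = 2 * al (dg (cI f) q0) := by simp [yy, h0, hI]
      have e2 : dd q0 f = 3 * be (dg (cI f) q0) := by simp [dd, h0, hI]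
      rw [e1, e2]
      exact leaf_std j f _ _ _ (by rw [dl_gg]; exact in_leaf q0 f h0 hI)
  · intro f
    have hn := hnv (cX f)
    rw [sz_X] at hn
    rcases in_X f q0 with h | h | h | ⟨h, h', h''⟩
    · subst h
      refine neck_near j f _ _ _ (by rw [dl_gg, d_X_X]) (Or.inr (by rw [dl_gg, d_I_X]))
    · subst h
      rw [if_pos rfl]
      exact neck_near j f _ _ 0 (by rw [dl_gg, d_X_I]) (Or.inl rfl)
    · subst h
      rw [if_neg (cX0 f)] at hn
      rw [if_neg (cI0 f).symm]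
      have : nv (cX f) = 27719 := by omega
      rw [this]
      exact neck_Y j f _ (by rw [dl_gg, d_X_Y]) (by rw [dl_gg, d_I_Y])
    · rw [if_neg (Ne.symm h')] at hn
      rw [if_neg h'']
      have : nv (cX f) = 27719 := by omega
      rw [this]
      exact neck_far j f _ (by rw [dl_gg]; exact h)
  · intro i
    by_cases h : q0 = cc i
    · left
      rw [dl_gg, h, d_c_c]
    · right
      rw [if_neg h, Nat.sub_zero]
      fin_cases i
      · exact Dvd.dvd.mul_left hA _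
      · exact Dvd.dvd.mul_left hA _
      · exact Dvd.dvd.mul_left hA _
      · exact Dvd.dvd.mul_left hA _
      · exact Dvd.dvd.mul_left hA _
      · exact Dvd.dvd.mul_left hA _
  · have h1 : nv 0 + (if (0 : Fin 14) = q0 then 1 else 0) = 48 * A := hnv 0
    show nv 0 = ((c0 + 1) * A - if q0 = 0 then 1 else 0) + (2 * A * yy q0 0 + 1 * A * yy q0 1
      + 2 * A * yy q0 2 + 1 * A * yy q0 3)
    have h2 : 48 * A = (c0 + 1) * A + (2 * A * yy q0 0 + 1 * A * yy q0 1
      + 2 * A * yy q0 2 + 1 * A * yy q0 3) := by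
      rw [hc0]
      ring
    have h3 := in_one (c0 + 1) A (by omega) hA1
    by_cases h4 : q0 = 0
    · rw [if_pos h4]
      rw [if_pos h4.symm] at h1
      omega
    · rw [if_neg h4]
      rw [if_neg (Ne.symm h4)] at h1
      omega
  · have h1 : nv 1 + (if (1 : Fin 14) = q0 then 1 else 0) = 18 * A := hnv 1
    show nv 1 = (c1 * A - if q0 = 1 then 1 else 0) + (2 * A * dd q0 0 + 1 * A * dd q0 1
      + 2 * A * dd q0 2 + 1 * A * dd q0 3)
    have h2 : 18 * A = c1 * A + (2 * A * dd q0 0 + 1 * A * dd q0 1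
      + 2 * A * dd q0 2 + 1 * A * dd q0 3) := by
      calc 18 * A = (2 * dd q0 0 + dd q0 1 + 2 * dd q0 2 + dd q0 3 + c1) * A := by rw [← hc1]
        _ = _ := by ring
    by_cases h4 : q0 = 1
    · have h3 := p1 h4
      rw [if_pos h4]
      rw [if_pos h4.symm] at h1
      omega
    · rw [if_neg h4]
      rw [if_neg (Ne.symm h4)] at h1
      omega
  · have h1 : nv 2 + (if (2 : Fin 14) = q0 then 1 else 0) = 18 * A := hnv 2
    show nv 2 = 18 * A - if q0 = 2 then 1 else 0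
    by_cases h4 : q0 = 2
    · rw [if_pos h4]
      rw [if_pos h4.symm] at h1
      omega
    · rw [if_neg h4]
      rw [if_neg (Ne.symm h4)] at h1
      omega
  · have h1 : nv 3 + (if (3 : Fin 14) = q0 then 1 else 0) = 18 * A := hnv 3
    show nv 3 = 18 * A - if q0 = 3 then 1 else 0
    by_cases h4 : q0 = 3
    · rw [if_pos h4]
      rw [if_pos h4.symm] at h1
      omega
    · rw [if_neg h4]
      rw [if_neg (Ne.symm h4)] at h1
      omega
  · have h1 : nv 4 + (if (4 : Fin 14) = q0 then 1 else 0) = 18 * A := hnv 4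
    show nv 4 = 18 * A - if q0 = 4 then 1 else 0
    by_cases h4 : q0 = 4
    · rw [if_pos h4]
      rw [if_pos h4.symm] at h1
      omega
    · rw [if_neg h4]
      rw [if_neg (Ne.symm h4)] at h1
      omega
  · have h1 : nv 5 + (if (5 : Fin 14) = q0 then 1 else 0) = 18 * A := hnv 5
    show nv 5 = ((c5 + 1) * A - if q0 = 5 then 1 else 0) + (2 * A * zz q0 0 + 1 * A * zz q0 1
      + 2 * A * zz q0 2 + 1 * A * zz q0 3)
    have h2 : 18 * A = (c5 + 1) * A + (2 * A * zz q0 0 + 1 * A * zz q0 1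
      + 2 * A * zz q0 2 + 1 * A * zz q0 3) := by
      calc 18 * A = (2 * zz q0 0 + zz q0 1 + 2 * zz q0 2 + zz q0 3 + c5 + 1) * A := by rw [← hc5]
        _ = _ := by ring
    have h3 := in_one (c5 + 1) A (by omega) hA1
    by_cases h4 : q0 = 5
    · rw [if_pos h4]
      rw [if_pos h4.symm] at h1
      omega
    · rw [if_neg h4]
      rw [if_neg (Ne.symm h4)] at h1
      omega
  · have h1 : nv 10 + (if (10 : Fin 14) = q0 then 1 else 0) = 2 * A + 1 := hnv 10
    show nv 10 = 2 * A + if q0 = 10 then 0 else 1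
    by_cases h4 : q0 = 10
    · rw [if_pos h4]
      rw [if_pos h4.symm] at h1
      omega
    · rw [if_neg h4]
      rw [if_neg (Ne.symm h4)] at h1
      omega
  · have h1 : nv 11 + (if (11 : Fin 14) = q0 then 1 else 0) = A + 1 := hnv 11
    show nv 11 = 1 * A + if q0 = 11 then 0 else 1
    by_cases h4 : q0 = 11
    · rw [if_pos h4]
      rw [if_pos h4.symm] at h1
      omega
    · rw [if_neg h4]
      rw [if_neg (Ne.symm h4)] at h1
      omega
  · have h1 : nv 12 + (if (12 : Fin 14) = q0 then 1 else 0) = 2 * A + 1 := hnv 12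
    show nv 12 = 2 * A + if q0 = 12 then 0 else 1
    by_cases h4 : q0 = 12
    · rw [if_pos h4]
      rw [if_pos h4.symm] at h1
      omega
    · rw [if_neg h4]
      rw [if_neg (Ne.symm h4)] at h1
      omega
  · have h1 : nv 13 + (if (13 : Fin 14) = q0 then 1 else 0) = A + 1 := hnv 13
    show nv 13 = 1 * A + if q0 = 13 then 0 else 1
    by_cases h4 : q0 = 13
    · rw [if_pos h4]
      rw [if_pos h4.symm] at h1
      omega
    · rw [if_neg h4]
      rw [if_neg (Ne.symm h4)] at h1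
      omega

end Pool.Agent.Q124.Cups
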