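import Pool.Agent.Q124.Cups.Basic

/-! The types of vertices, their distances, and the graph of a map from vertices to types. -/

set_option autoImplicit false

namespace Pool.Agent.Q124.Cups

open Finset

/-- types: `n 0` the root, `n 1` the big clique, `n (2+f)`, `n (6+f)` the necks and the leaves of the
broken gadget; `g j q` cell `q` of the intact gadget `j` -/
inductive Ty
  | n (m : Fin 10)
  | g (j : ℕ) (q : Fin 14)
  deriving DecidableEq

/-- height of a cell above cell `0` -/
def rho : Fin 14 → ℕ := ![0, 1, 2, 3, 4, 5, 1, 1, 1, 1, 2, 2, 2, 2]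

/-- branch of a cell -/
def br : Fin 14 → ℕ := ![0, 1, 1, 1, 1, 1, 2, 3, 4, 5, 2, 3, 4, 5]

/-- distance to the root -/
def kap : Fin 10 → ℕ := ![0, 1, 1, 1, 2, 2, 2, 2, 3, 3]

/-- distances of the types `n` -/
def dn : Fin 10 → Fin 10 → ℕ := ![
  ![1, 1, 1, 1, 2, 2, 2, 2, 3, 3],
  ![1, 1, 1, 1, 1, 1, 2, 2, 2, 2],
  ![1, 1, 1, 1, 2, 2, 1, 2, 3, 3],
  ![1, 1, 1, 1, 2, 2, 2, 1, 3, 3],
  ![2, 1, 2, 2, 1, 1, 3, 3, 1, 2],
  ![2, 1, 2, 2, 1, 1, 3, 3, 2, 1],
  ![2, 2, 1, 2, 3, 3, 2, 3, 4, 4],
  ![2, 2, 2, 1, 3, 3, 3, 2, 4, 4],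
  ![3, 2, 3, 3, 1, 2, 4, 4, 2, 3],
  ![3, 2, 3, 3, 2, 1, 4, 4, 3, 2]]

/-- distances of the cells of a gadget -/
def dg (q q' : Fin 14) : ℕ :=
  if q = q' then (if 10 ≤ q.val then 2 else 1) else
    if br q = br q' then (rho q - rho q') + (rho q' - rho q) else rho q + rho q'

/-- distances of different vertices of given types -/
def dl : Ty → Ty → ℕ
  | .n m, .n m' => dn m m'
  | .n m, .g _ q => kap m + rho q + 1
  | .g _ q, .n m => kap m + rho q + 1
  | .g j q, .g j' q' => if j = j' then dg q q' else rho q + rho q' + 2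

theorem dn_symm : ∀ m m', dn m m' = dn m' m := by decide +kernel
theorem dg_symm : ∀ q q', dg q q' = dg q' q := by decide +kernel
theorem dn_pos : ∀ m m', 1 ≤ dn m m' := by decide +kernel
theorem dg_pos : ∀ q q', 1 ≤ dg q q' := by decide +kernel
theorem dn_le : ∀ m m', dn m m' ≤ 4 := by decide +kernel
theorem dg_le : ∀ q q', dg q q' ≤ 7 := by decide +kernel
theorem rho_le : ∀ q, rho q ≤ 5 := by decide +kernel
theorem kap_le : ∀ m, kap m ≤ 3 := by decide +kernel
theorem dn_lip : ∀ a b c, dn b c = 1 → dn a c ≤ dn a b + 1 := by decide +kernel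
theorem dg_lip : ∀ a b c, dg b c = 1 → dg a c ≤ dg a b + 1 := by decide +kernel
theorem kap_lip : ∀ b c, dn b c = 1 → kap c ≤ kap b + 1 := by decide +kernel
theorem rho_lip : ∀ b c, dg b c = 1 → rho c ≤ rho b + 1 := by decide +kernel
theorem dg_Y : ∀ q, dg q 0 ≤ rho q + 1 ∧ rho q ≤ dg q 0 ∧ (1 ≤ rho q → dg q 0 = rho q) := by
  decide +kernel
theorem dn_root : ∀ m, dn m 0 ≤ kap m + 1 ∧ kap m ≤ dn m 0 ∧ (1 ≤ kap m → dn m 0 = kap m) := by
  decide +kernel
theorem rho_zero : ∀ q, rho q = 0 → q = 0 := by decide +kernel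
theorem kap_zero : ∀ m, kap m = 0 → m = 0 := by decide +kernel
theorem step_g : ∀ q, 1 ≤ rho q → ∃ q', dg q' q = 1 ∧ rho q' + 1 = rho q := by decide +kernel
theorem step_n : ∀ m, m ≠ 0 → ∃ m', dn m' m = 1 ∧ kap m' + 1 = kap m := by decide +kernel
theorem step_gg : ∀ q q', 2 ≤ dg q q' → ∃ q'', q'' ≠ q ∧ dg q'' q' = 1 ∧ dg q q'' + 1 = dg q q' := by
  decide +kernel
theorem step_nn : ∀ q q', 2 ≤ dn q q' → ∃ q'', q'' ≠ q ∧ dn q'' q' = 1 ∧ dn q q'' + 1 = dn q q' := by
  decide +kernel
theorem dn_low : ∀ m m', (m = 0 ∨ m = 1) → (m' = 0 ∨ m' = 1) → dn m m' = 1 := by decide +kernel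

theorem dl_symm (a b : Ty) : dl a b = dl b a := by
  rcases a with m | ⟨j, q⟩ <;> rcases b with m' | ⟨j', q'⟩
  · exact dn_symm m m'
  · rfl
  · rfl
  · simp only [dl]
    by_cases h : j = j'
    · rw [if_pos h, if_pos h.symm, dg_symm]
    · rw [if_neg h, if_neg (Ne.symm h), add_comm (rho q)]

theorem dl_pos (a b : Ty) : 1 ≤ dl a b := by
  rcases a with m | ⟨j, q⟩ <;> rcases b with m' | ⟨j', q'⟩
  · exact dn_pos m m'
  · simp only [dl]; omega
  · simp only [dl]; omega
  · simp only [dl]
    have := dg_pos q q'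
    split_ifs <;> omega

theorem dl_le (a b : Ty) : dl a b ≤ 12 := by
  rcases a with m | ⟨j, q⟩ <;> rcases b with m' | ⟨j', q'⟩
  · exact (dn_le m m').trans (by norm_num)
  · simp only [dl]
    have := kap_le m
    have := rho_le q'
    omega
  · simp only [dl]
    have := kap_le m'
    have := rho_le q
    omega
  · simp only [dl]
    have := dg_le q q'
    have := rho_le q
    have := rho_le q'
    split_ifs <;> omega

theorem dl_lip (a b c : Ty) (h : dl b c = 1) : dl a c ≤ dl a b + 1 := by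
  rcases b with mb | ⟨jb, qb⟩ <;> rcases c with mc | ⟨jc, qc⟩
  · rcases a with m | ⟨j, q⟩
    · exact dn_lip m mb mc h
    · have := kap_lip mb mc h
      simp only [dl]
      omega
  · simp only [dl] at h
    have h1 : kap mb = 0 := by omega
    have h2 : rho qc = 0 := by omega
    have h3 := kap_zero mb h1
    have h4 := rho_zero qc h2
    subst h3
    subst h4
    rcases a with m | ⟨j, q⟩
    · have := dn_root m
      simp only [dl]
      omega
    · have := dg_Y q
      simp only [dl]
      split_ifs <;> omega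
  · simp only [dl] at h
    have h1 : kap mc = 0 := by omega
    have h2 : rho qb = 0 := by omega
    have h3 := kap_zero mc h1
    have h4 := rho_zero qb h2
    subst h3
    subst h4
    rcases a with m | ⟨j, q⟩
    · have := dn_root m
      simp only [dl]
      omega
    · have := dg_Y q
      simp only [dl]
      split_ifs <;> omega
  · simp only [dl] at h
    by_cases hj : jb = jc
    · subst hj
      rw [if_pos rfl] at h
      have h1 := rho_lip qb qc h
      rcases a with m | ⟨j, q⟩
      · simp only [dl]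
        omega
      · have := dg_lip q qb qc h
        simp only [dl]
        split_ifs <;> omega
    · rw [if_neg hj] at h
      omega

section graph

variable {V : Type*}

/-- the graph of a map from vertices to types -/
def gr (τ : V → Ty) : SimpleGraph V where
  Adj u v := u ≠ v ∧ dl (τ u) (τ v) = 1
  symm := ⟨fun _ _ h => ⟨h.1.symm, by rw [dl_symm]; exact h.2⟩⟩
  loopless := ⟨fun _ h => h.1 rfl⟩

theorem lower (τ : V → Ty) {u v : V} (p : (gr τ).Walk v u) : v ≠ u → dl (τ u) (τ v) ≤ p.length := by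
  induction p with
  | nil => exact fun h => absurd rfl h
  | @cons v w u hadj p ih =>
    intro _
    rw [SimpleGraph.Walk.length_cons]
    by_cases hw : w = u
    · subst hw
      have h1 : dl (τ v) (τ w) = 1 := hadj.2
      rw [dl_symm, h1]
      omega
    · have h1 := ih hw
      have h2 : dl (τ v) (τ w) = 1 := hadj.2
      rw [dl_symm] at h2
      have := dl_lip (τ u) (τ w) (τ v) h2
      omega

theorem upper (τ : V → Ty) (hmid : ∀ u v, 2 ≤ dl (τ u) (τ v) →
    ∃ w, τ w ≠ τ u ∧ dl (τ w) (τ v) = 1 ∧ dl (τ u) (τ w) + 1 = dl (τ u) (τ v)) :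
    ∀ (n : ℕ) (u v : V), u ≠ v → dl (τ u) (τ v) = n + 1 → ∃ p : (gr τ).Walk u v, p.length = n + 1 := by
  intro n
  induction n with
  | zero =>
    intro u v huv h
    exact ⟨SimpleGraph.Walk.cons ⟨huv, h⟩ SimpleGraph.Walk.nil, rfl⟩
  | succ n ih =>
    intro u v huv h
    obtain ⟨w, h1, h2, h3⟩ := hmid u v (by omega)
    obtain ⟨p, hp⟩ := ih u w (fun e => h1 (by rw [e])) (by omega)
    have hwv : w ≠ v := by
      rintro rfl
      omega
    have hadj : (gr τ).Adj w v := ⟨hwv, h2⟩
    refine ⟨p.concat hadj, ?_⟩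
    rw [SimpleGraph.Walk.length_concat, hp]

theorem dist_gr (τ : V → Ty) (hmid : ∀ u v, 2 ≤ dl (τ u) (τ v) →
    ∃ w, τ w ≠ τ u ∧ dl (τ w) (τ v) = 1 ∧ dl (τ u) (τ w) + 1 = dl (τ u) (τ v)) (u v : V)
    (huv : u ≠ v) : (gr τ).dist u v = dl (τ u) (τ v) := by
  have h1 := dl_pos (τ u) (τ v)
  obtain ⟨p, hp⟩ := upper τ hmid (dl (τ u) (τ v) - 1) u v huv (by omega)
  apply le_antisymm
  · have := SimpleGraph.dist_le p
    omega
  · obtain ⟨q, hq⟩ := (p.reachable.symm).exists_walk_length_eq_dist
    have := lower τ q huv.symm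
    rw [hq, SimpleGraph.dist_comm] at this
    exact this

theorem conn_gr [Nonempty V] (τ : V → Ty) (hmid : ∀ u v, 2 ≤ dl (τ u) (τ v) →
    ∃ w, τ w ≠ τ u ∧ dl (τ w) (τ v) = 1 ∧ dl (τ u) (τ w) + 1 = dl (τ u) (τ v)) :
    (gr τ).Connected := by
  refine ⟨fun u v => ?_⟩
  by_cases huv : u = v
  · rw [huv]
  have h1 := dl_pos (τ u) (τ v)
  obtain ⟨p, -⟩ := upper τ hmid (dl (τ u) (τ v) - 1) u v huv (by omega)
  exact p.reachable

/-- the condition on the types that occur -/
structure Occ (τ : V → Ty) : Prop where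
  root : ∃ w, τ w = .n 0
  near : (∀ m, ∃ w, τ w = .n m) ∨ ∀ v m, τ v = .n m → m = 0 ∨ m = 1
  far : ∀ v j q, τ v = .g j q → ∀ q', ∃ w, τ w = .g j q'

theorem Occ.mid {τ : V → Ty} (h : Occ τ) (u v : V) (huv : 2 ≤ dl (τ u) (τ v)) :
    ∃ w, τ w ≠ τ u ∧ dl (τ w) (τ v) = 1 ∧ dl (τ u) (τ w) + 1 = dl (τ u) (τ v) := by
  rcases hu : τ u with m | ⟨j, q⟩ <;> rcases hv : τ v with m' | ⟨j', q'⟩ <;>
    rw [hu, hv] at huv
  · have huv' : 2 ≤ dn m m' := huv
    rcases h.near with h1 | h1
    · obtain ⟨m'', e1, e2, e3⟩ := step_nn m m' huv'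
      obtain ⟨w, hw⟩ := h1 m''
      exact ⟨w, by rw [hw]; simpa using e1, by rw [hw]; exact e2, by rw [hw]; exact e3⟩
    · have := dn_low m m' (h1 u m hu) (h1 v m' hv)
      omega
  · have huv' : 2 ≤ kap m + rho q' + 1 := huv
    by_cases hr : 1 ≤ rho q'
    · obtain ⟨q'', e1, e2⟩ := step_g q' hr
      obtain ⟨w, hw⟩ := h.far v j' q' hv q''
      refine ⟨w, by rw [hw]; simp, by rw [hw]; simpa [dl] using e1, ?_⟩
      rw [hw]
      simp only [dl]
      omega
    · have hq : q' = 0 := rho_zero q' (by omega)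
      subst hq
      obtain ⟨w, hw⟩ := h.root
      have hm := dn_root m
      have hk : 1 ≤ kap m := by
        have : rho 0 = 0 := rfl
        omega
      refine ⟨w, ?_, by rw [hw]; rfl, ?_⟩
      · rw [hw]
        intro e
        injection e with e
        subst e
        exact absurd hk (by decide)
      · rw [hw]
        simp only [dl]
        have : rho 0 = 0 := rfl
        omega
  · have huv' : 2 ≤ kap m' + rho q + 1 := huv
    by_cases hm : m' = 0
    · subst hm
      have h0 : kap 0 = 0 := rfl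
      obtain ⟨w, hw⟩ := h.far u j q hu 0
      have hq := dg_Y q
      refine ⟨w, ?_, by rw [hw]; rfl, ?_⟩
      · rw [hw]
        intro e
        injection e with _ e
        subst e
        have : rho 0 = 0 := rfl
        omega
      · rw [hw]
        simp only [dl, if_true]
        omega
    · obtain ⟨m'', e1, e2⟩ := step_n m' hm
      have hw : ∃ w, τ w = .n m'' := by
        rcases h.near with h1 | h1
        · exact h1 m''
        · rcases h1 v m' hv with h2 | h2
          · exact absurd h2 hm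
          · subst h2
            have h3 : kap 1 = 1 := rfl
            have : m'' = 0 := kap_zero m'' (by omega)
            rw [this]
            exact h.root
      obtain ⟨w, hw⟩ := hw
      refine ⟨w, by rw [hw]; simp, by rw [hw]; exact e1, ?_⟩
      rw [hw]
      simp only [dl]
      omega
  · by_cases hj : j = j'
    · subst hj
      have huv' : 2 ≤ dg q q' := by simpa [dl] using huv
      obtain ⟨q'', e1, e2, e3⟩ := step_gg q q' huv'
      obtain ⟨w, hw⟩ := h.far u j q hu q''
      refine ⟨w, ?_, by rw [hw]; simpa [dl] using e2, by rw [hw]; simpa [dl] using e3⟩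
      rw [hw]
      intro e
      injection e with _ e
      exact e1 e
    · by_cases hr : 1 ≤ rho q'
      · obtain ⟨q'', e1, e2⟩ := step_g q' hr
        obtain ⟨w, hw⟩ := h.far v j' q' hv q''
        refine ⟨w, ?_, by rw [hw]; simpa [dl] using e1, ?_⟩
        · rw [hw]
          intro e
          injection e with e _
          exact hj e.symm
        · rw [hw]
          simp only [dl, if_neg hj]
          omega
      · have hq : q' = 0 := rho_zero q' (by omega)
        subst hq
        obtain ⟨w, hw⟩ := h.root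
        refine ⟨w, by rw [hw]; simp, by rw [hw]; rfl, ?_⟩
        rw [hw]
        simp only [dl, if_neg hj]
        have : rho 0 = 0 := rfl
        have : kap 0 = 0 := rfl
        omega

end graph

end Pool.Agent.Q124.Cups
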